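import Mathlib
import Pool.Agent.Helper16.MD.Stmts

set_option autoImplicit false

open Finset
open scoped ComplexConjugate

namespace Pool.Agent.Helper16.MD

theorem cnc_ee_int (x : ℝ) (m : ℤ) : ee (x - m) = ee x := by
  unfold ee
  rw [show (((2 * Real.pi * (x - m) : ℝ) : ℂ) * Complex.I) =
    ((2 * Real.pi * x : ℝ) : ℂ) * Complex.I - m * (2 * Real.pi * Complex.I) by push_cast; ring]
  exact Complex.exp_periodic.sub_int_mul_eq m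

theorem cnc_norm_ee (x : ℝ) : ‖ee x‖ = 1 := by
  unfold ee
  exact Complex.norm_exp_ofReal_mul_I _

theorem cnc_ee_pow (x : ℝ) (h : ℕ) : ee ((h : ℝ) * x) = ee x ^ h := by
  unfold ee
  rw [← Complex.exp_nat_mul]
  congr 1
  push_cast
  ring

theorem cnc_norm_sub_one (x : ℝ) : 4 * |x - round x| ≤ ‖ee x - 1‖ := by
  rw [← cnc_ee_int x (round x)]
  have hy : |x - round x| ≤ 1 / 2 := abs_sub_round x
  generalize x - round x = y at hy ⊢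
  unfold ee
  rw [mul_comm _ Complex.I, Complex.norm_exp_I_mul_ofReal_sub_one, Real.norm_eq_abs, abs_mul,
    show 2 * Real.pi * y / 2 = Real.pi * y by ring]
  have h1 : |Real.pi * y| ≤ Real.pi / 2 := by
    rw [abs_mul, abs_of_pos Real.pi_pos]
    nlinarith [Real.pi_pos]
  have h2 := Real.mul_abs_le_abs_sin h1
  rw [abs_mul, abs_of_pos Real.pi_pos] at h2
  have h3 : 2 / Real.pi * (Real.pi * |y|) = 2 * |y| := by
    field_simp
  rw [h3] at h2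
  rw [abs_of_pos (by norm_num : (0 : ℝ) < 2)]
  linarith

/-- the geometric sum -/
theorem cnc_geom (x : ℝ) (H : ℕ) :
    2 * |x - round x| * ‖∑ h ∈ range H, ee ((h : ℝ) * x)‖ ≤ 1 := by
  have h1 : (∑ h ∈ range H, ee ((h : ℝ) * x)) * (ee x - 1) = ee x ^ H - 1 := by
    rw [← geom_sum_mul]
    congr 1
    exact sum_congr rfl fun h _ => cnc_ee_pow x h
  have h2 : ‖ee x ^ H - 1‖ ≤ 2 := by
    refine (norm_sub_le _ _).trans ?_
    rw [norm_pow, cnc_norm_ee, one_pow, norm_one]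
    norm_num
  rw [← h1, norm_mul] at h2
  have h3 := cnc_norm_sub_one x
  have h4 := mul_le_mul_of_nonneg_left h3 (norm_nonneg (∑ h ∈ range H, ee ((h : ℝ) * x)))
  nlinarith

/-- the kernel -/
noncomputable def cncK (Λ H : ℕ) (P : ℕ) (δ : ℤ) : ℝ :=
  ‖∑ h ∈ range H, ee ((P : ℝ) * h * (δ : ℝ) / Λ)‖ ^ 2

theorem cnc_K_nonneg (Λ H P : ℕ) (δ : ℤ) : 0 ≤ cncK Λ H P δ := by
  unfold cncK
  positivity

theorem cnc_K_le (Λ H P : ℕ) (δ : ℤ) : cncK Λ H P δ ≤ (H : ℝ) ^ 2 := by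
  unfold cncK
  refine pow_le_pow_left₀ (norm_nonneg _) ?_ 2
  refine (norm_sum_le _ _).trans ?_
  have h1 : ∑ h ∈ range H, ‖ee ((P : ℝ) * h * (δ : ℝ) / Λ)‖ = ∑ h ∈ range H, (1 : ℝ) :=
    sum_congr rfl fun h _ => cnc_norm_ee _
  rw [h1]
  simp

/-- a large kernel gives a small residue -/
theorem cnc_small {Λ R H P : ℕ} {κ C : ℝ} {δ : ℤ} (hΛ : 1 ≤ Λ) (hH : 1 ≤ H) (hκ : 0 < κ)
    (hΛC : (Λ : ℝ) ≤ C * Real.sqrt κ * H * R) (hK : κ / 4 * (H : ℝ) ^ 2 ≤ cncK Λ H P δ) :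
    ∃ m : ℤ, (Λ : ℤ) ∣ (P : ℤ) * δ - m ∧ |(m : ℝ)| ≤ C * R := by
  have hΛ0 : (0 : ℝ) < Λ := by exact_mod_cast hΛ
  have hH0 : (0 : ℝ) < H := by exact_mod_cast hH
  obtain ⟨x, hx⟩ : ∃ x : ℝ, x = (P : ℝ) * δ / Λ := ⟨_, rfl⟩
  refine ⟨(P : ℤ) * δ - Λ * round x, ⟨round x, by ring⟩, ?_⟩
  have h1 := cnc_geom x H
  have h2 : cncK Λ H P δ = ‖∑ h ∈ range H, ee ((h : ℝ) * x)‖ ^ 2 := by
    unfold cncK
    rw [sum_congr rfl fun h _ => by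
      rw [show (P : ℝ) * h * (δ : ℝ) / Λ = (h : ℝ) * x by rw [hx]; ring]]
  rw [h2] at hK
  have hsq : 0 < Real.sqrt κ := Real.sqrt_pos.mpr hκ
  have hsq2 : Real.sqrt κ ^ 2 = κ := Real.sq_sqrt hκ.le
  have h3 : Real.sqrt κ / 2 * H ≤ ‖∑ h ∈ range H, ee ((h : ℝ) * x)‖ := by
    refine (pow_le_pow_iff_left₀ (by positivity) (norm_nonneg _) two_ne_zero).mp ?_
    calc (Real.sqrt κ / 2 * H) ^ 2 = Real.sqrt κ ^ 2 / 4 * (H : ℝ) ^ 2 := by ring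
      _ = κ / 4 * (H : ℝ) ^ 2 := by rw [hsq2]
      _ ≤ _ := hK
  have h4 : |x - round x| * (Real.sqrt κ * H) ≤ 1 := by
    have := mul_le_mul_of_nonneg_left h3 (by positivity : 0 ≤ 2 * |x - round x|)
    nlinarith
  have h5 : (((P : ℤ) * δ - Λ * round x : ℤ) : ℝ) = Λ * (x - round x) := by
    push_cast
    rw [hx]
    field_simp
  rw [h5, abs_mul, abs_of_pos hΛ0]
  have h6 : (Λ : ℝ) * |x - round x| * (Real.sqrt κ * H) ≤ (C * R) * (Real.sqrt κ * H) := by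
    calc (Λ : ℝ) * |x - round x| * (Real.sqrt κ * H) =
        Λ * (|x - round x| * (Real.sqrt κ * H)) := by ring
      _ ≤ Λ * 1 := mul_le_mul_of_nonneg_left h4 hΛ0.le
      _ ≤ (C * R) * (Real.sqrt κ * H) := by linarith
  exact le_of_mul_le_mul_right h6 (by positivity)

/-- the claim -/
theorem cnc_claim {Λ R H : ℕ} {κ C : ℝ} {B : Finset (ℕ × ℕ × ℕ)} {δ : ℤ} (hΛ : 1 ≤ Λ)
    (hR : 1 ≤ R) (hH : 1 ≤ H) (hκ : 0 < κ)
    (hB : ∀ s ∈ B, R < pr s ∧ pr s ≤ 8 * R ∧ (pr s).Coprime Λ)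
    (hco : ∀ s ∈ B, 8 * ((B.filter fun t => ¬ (pr s).Coprime (pr t)).card : ℝ) ≤ κ * B.card)
    (hΛC : (Λ : ℝ) ≤ C * Real.sqrt κ * H * R) (hΛR : 16 * C * (R : ℝ) ^ 2 < Λ)
    (hK : κ / 2 * (B.card * (H : ℝ) ^ 2) < ∑ s ∈ B, cncK Λ H (pr s) δ) :
    ∃ l : ℤ, |(l : ℝ)| ≤ C ∧ (Λ : ℤ) ∣ δ - l := by
  classical
  have hH0 : (0 : ℝ) < H := by exact_mod_cast hH
  have hR0 : (0 : ℝ) < R := by exact_mod_cast hR
  obtain ⟨G, hG⟩ : ∃ G : Finset (ℕ × ℕ × ℕ),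
      G = B.filter fun s => κ / 4 * (H : ℝ) ^ 2 ≤ cncK Λ H (pr s) δ := ⟨_, rfl⟩
  -- G is large
  have h1 : κ / 4 * B.card < G.card := by
    by_contra hcon
    push Not at hcon
    have h2 : ∑ s ∈ B, cncK Λ H (pr s) δ ≤ ∑ s ∈ B,
        (κ / 4 * (H : ℝ) ^ 2 + if κ / 4 * (H : ℝ) ^ 2 ≤ cncK Λ H (pr s) δ then (H : ℝ) ^ 2 else 0) := by
      refine sum_le_sum fun s _ => ?_
      split_ifs with h
      · have := cnc_K_le Λ H (pr s) δ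
        have : 0 ≤ κ / 4 * (H : ℝ) ^ 2 := by positivity
        linarith [cnc_K_le Λ H (pr s) δ]
      · push Not at h
        linarith
    rw [sum_add_distrib, sum_const, nsmul_eq_mul, ← sum_filter, ← hG, sum_const, nsmul_eq_mul] at h2
    have h3 : (G.card : ℝ) * (H : ℝ) ^ 2 ≤ κ / 4 * B.card * (H : ℝ) ^ 2 :=
      mul_le_mul_of_nonneg_right hcon (by positivity)
    nlinarith
  have hGpos : 0 < G.card := by
    have : (0 : ℝ) < G.card := lt_of_le_of_lt (by positivity) h1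
    exact_mod_cast this
  obtain ⟨s, hs⟩ := card_pos.mp hGpos
  have hsB : s ∈ B := (mem_filter.mp (hG ▸ hs)).1
  -- a coprime element
  obtain ⟨t, ht, htc⟩ : ∃ t ∈ G, (pr s).Coprime (pr t) := by
    by_contra hcon
    push Not at hcon
    have h2 : G ⊆ B.filter fun t => ¬ (pr s).Coprime (pr t) := fun t ht =>
      mem_filter.mpr ⟨(mem_filter.mp (hG ▸ ht)).1, hcon t ht⟩
    have h3 : (G.card : ℝ) ≤ (B.filter fun t => ¬ (pr s).Coprime (pr t)).card := by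
      exact_mod_cast card_le_card h2
    have h4 := hco s hsB
    have h5 : 0 ≤ κ * B.card := by positivity
    linarith
  have htB : t ∈ B := (mem_filter.mp (hG ▸ ht)).1
  have hs' : κ / 4 * (H : ℝ) ^ 2 ≤ cncK Λ H (pr s) δ := by
    rw [hG] at hs
    exact (mem_filter.mp hs).2
  have ht' : κ / 4 * (H : ℝ) ^ 2 ≤ cncK Λ H (pr t) δ := by
    rw [hG] at ht
    exact (mem_filter.mp ht).2
  obtain ⟨ms, hms1, hms2⟩ := cnc_small hΛ hH hκ hΛC hs'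
  obtain ⟨mt, hmt1, hmt2⟩ := cnc_small hΛ hH hκ hΛC ht'
  obtain ⟨hs1, hs2, hs3⟩ := hB s hsB
  obtain ⟨ht1, ht2, ht3⟩ := hB t htB
  have hdvd : (Λ : ℤ) ∣ (pr t : ℤ) * ms - (pr s : ℤ) * mt := by
    have := dvd_sub (Dvd.dvd.mul_left hmt1 (pr s : ℤ)) (Dvd.dvd.mul_left hms1 (pr t : ℤ))
    have h : (pr s : ℤ) * ((pr t : ℤ) * δ - mt) - (pr t : ℤ) * ((pr s : ℤ) * δ - ms) =
      (pr t : ℤ) * ms - (pr s : ℤ) * mt := by ring
    rwa [h] at this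
  have hps : ((pr s : ℕ) : ℝ) ≤ 8 * R := by exact_mod_cast hs2
  have hpt : ((pr t : ℕ) : ℝ) ≤ 8 * R := by exact_mod_cast ht2
  have hsmall : |(pr t : ℤ) * ms - (pr s : ℤ) * mt| < Λ := by
    have h : (|(pr t : ℤ) * ms - (pr s : ℤ) * mt| : ℤ) = ((|(pr t : ℤ) * ms - (pr s : ℤ) * mt| : ℤ)) := rfl
    have h2 : ((|(pr t : ℤ) * ms - (pr s : ℤ) * mt| : ℤ) : ℝ) < (Λ : ℝ) := by
      push_cast
      calc |((pr t : ℕ) : ℝ) * ms - ((pr s : ℕ) : ℝ) * mt|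
          ≤ |((pr t : ℕ) : ℝ) * ms| + |((pr s : ℕ) : ℝ) * mt| := abs_sub _ _
        _ = ((pr t : ℕ) : ℝ) * |(ms : ℝ)| + ((pr s : ℕ) : ℝ) * |(mt : ℝ)| := by
            rw [abs_mul, abs_mul,
              abs_of_nonneg (Nat.cast_nonneg (pr t) : (0 : ℝ) ≤ ((pr t : ℕ) : ℝ)),
              abs_of_nonneg (Nat.cast_nonneg (pr s) : (0 : ℝ) ≤ ((pr s : ℕ) : ℝ))]
        _ ≤ 8 * R * (C * R) + 8 * R * (C * R) := by
            refine add_le_add ?_ ?_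
            · exact mul_le_mul hpt hms2 (abs_nonneg _) (by positivity)
            · exact mul_le_mul hps hmt2 (abs_nonneg _) (by positivity)
        _ = 16 * C * (R : ℝ) ^ 2 := by ring
        _ < Λ := hΛR
    exact_mod_cast h2
  have heq : (pr t : ℤ) * ms = (pr s : ℤ) * mt := by
    have := Int.eq_zero_of_abs_lt_dvd hdvd hsmall
    linarith
  have hd : (pr s : ℤ) ∣ ms := by
    have h : (pr s : ℤ) ∣ (pr t : ℤ) * ms := ⟨mt, heq⟩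
    have hcop : IsCoprime (pr s : ℤ) (pr t : ℤ) := Nat.isCoprime_iff_coprime.mpr htc
    exact hcop.dvd_of_dvd_mul_left h
  obtain ⟨l, hl⟩ := hd
  refine ⟨l, ?_, ?_⟩
  · have h2 : (R : ℝ) * |(l : ℝ)| ≤ R * C := by
      have h3 : ((pr s : ℕ) : ℝ) * |(l : ℝ)| = |(ms : ℝ)| := by
        rw [hl]
        push_cast
        rw [abs_mul, abs_of_nonneg (Nat.cast_nonneg (pr s) : (0 : ℝ) ≤ ((pr s : ℕ) : ℝ))]
      have h4 : (R : ℝ) ≤ (pr s : ℕ) := by exact_mod_cast hs1.le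
      calc (R : ℝ) * |(l : ℝ)| ≤ ((pr s : ℕ) : ℝ) * |(l : ℝ)| :=
            mul_le_mul_of_nonneg_right h4 (abs_nonneg _)
        _ = |(ms : ℝ)| := h3
        _ ≤ R * C := by linarith
    exact le_of_mul_le_mul_left h2 hR0
  · have h2 : (Λ : ℤ) ∣ (pr s : ℤ) * (δ - l) := by
      have h : (pr s : ℤ) * (δ - l) = (pr s : ℤ) * δ - ms := by rw [hl]; ring
      rw [h]
      exact hms1
    have hcop : IsCoprime (Λ : ℤ) (pr s : ℤ) := Nat.isCoprime_iff_coprime.mpr hs3.symm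
    exact hcop.dvd_of_dvd_mul_left h2

/-- near residues -/
theorem cnc_near {Λ : ℕ} {C : ℝ} (hC : 1 ≤ C) (ξ : ℕ) (N : Finset ℕ)
    (hN : ∀ ξ' ∈ N, ξ' < Λ ∧ ∃ l : ℤ, |(l : ℝ)| ≤ C ∧ (Λ : ℤ) ∣ ((ξ : ℤ) - ξ') - l) :
    (N.card : ℝ) ≤ 2 * C + 1 := by
  classical
  have hC0 : 0 ≤ ⌊C⌋ := Int.floor_nonneg.mpr (by linarith)
  have h1 : N.card ≤ (Finset.Icc (-⌊C⌋) ⌊C⌋).card := by
    refine card_le_card_of_surjOn (fun l : ℤ => (((ξ : ℤ) - l) % Λ).toNat) ?_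
    intro ξ' hξ'
    obtain ⟨hlt, l, hl, hd⟩ := hN ξ' hξ'
    refine ⟨l, ?_, ?_⟩
    · rw [Finset.coe_Icc, Set.mem_Icc]
      have h2 := abs_le.mp hl
      constructor
      · have : -l ≤ ⌊C⌋ := Int.le_floor.mpr (by push_cast; linarith)
        linarith
      · exact Int.le_floor.mpr h2.2
    · show (((ξ : ℤ) - l) % Λ).toNat = ξ'
      have h2 : ((ξ : ℤ) - l) % Λ = ξ' := by
        have h3 : ((ξ : ℤ) - l) % Λ = (ξ' : ℤ) % Λ := by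
          refine Int.ModEq.symm ((Int.modEq_iff_dvd).mpr ?_)
          have h : (ξ : ℤ) - l - ξ' = (ξ : ℤ) - ξ' - l := by ring
          rw [h]
          exact hd
        rw [h3]
        exact Int.emod_eq_of_lt (by positivity) (by exact_mod_cast hlt)
      rw [h2]
      simp
  have h2 : ((Finset.Icc (-⌊C⌋) ⌊C⌋).card : ℝ) ≤ 2 * C + 1 := by
    rw [Int.card_Icc]
    have h3 : ((⌊C⌋ + 1 - -⌊C⌋).toNat : ℤ) = 2 * ⌊C⌋ + 1 := by
      rw [Int.toNat_of_nonneg (by linarith)]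
      ring
    have h4 : (((⌊C⌋ + 1 - -⌊C⌋).toNat : ℤ) : ℝ) = 2 * (⌊C⌋ : ℝ) + 1 := by
      rw [h3]
      push_cast
      ring
    have h5 : (((⌊C⌋ + 1 - -⌊C⌋).toNat : ℕ) : ℝ) = (((⌊C⌋ + 1 - -⌊C⌋).toNat : ℤ) : ℝ) :=
      (Int.cast_natCast _).symm
    rw [h5, h4]
    have := Int.floor_le C
    linarith
  calc (N.card : ℝ) ≤ ((Finset.Icc (-⌊C⌋) ⌊C⌋).card : ℝ) := by exact_mod_cast h1
    _ ≤ _ := h2

theorem st_CNC : ST_CNC := by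
  classical
  intro Λ R H κ C B ν hΛ hR hH hκ hκ1 hC hBne hB hco hΛC hΛR hν hνsum hmain
  have hH0 : (0 : ℝ) < H := by exact_mod_cast hH
  have hBc : (0 : ℝ) < B.card := by exact_mod_cast card_pos.mpr hBne
  obtain ⟨ξ₀, hξ₀, hmax⟩ := exists_max_image (range Λ) ν ⟨0, mem_range.mpr (by omega)⟩
  refine ⟨ξ₀, hξ₀, ?_⟩
  obtain ⟨W, hW⟩ : ∃ W : ℝ, W = B.card * (H : ℝ) ^ 2 := ⟨_, rfl⟩
  have hW0 : 0 < W := by rw [hW]; positivity
  -- the kernel bound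
  have hker : ∀ ξ ∈ range Λ, ∀ ξ' ∈ range Λ, ∑ s ∈ B, cncK Λ H (pr s) ((ξ : ℤ) - ξ') ≤
      W * (κ / 2 + if ∃ l : ℤ, |(l : ℝ)| ≤ C ∧ (Λ : ℤ) ∣ ((ξ : ℤ) - ξ') - l then 1 else 0) := by
    intro ξ _ ξ' _
    split_ifs with h
    · calc ∑ s ∈ B, cncK Λ H (pr s) ((ξ : ℤ) - ξ') ≤ ∑ s ∈ B, (H : ℝ) ^ 2 :=
            sum_le_sum fun s _ => cnc_K_le _ _ _ _
        _ = W := by rw [sum_const, nsmul_eq_mul, hW]
        _ ≤ W * (κ / 2 + 1) := by nlinarith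
    · by_contra hcon
      push Not at hcon
      rw [add_zero] at hcon
      exact h (cnc_claim hΛ hR hH hκ hB hco hΛC hΛR (by rw [hW] at hcon; linarith))
  have hre : ∑ s ∈ B, ∑ ξ ∈ range Λ, ∑ ξ' ∈ range Λ, ν ξ * ν ξ' *
      ‖∑ h ∈ range H, ee ((pr s : ℝ) * h * ((ξ : ℝ) - ξ') / Λ)‖ ^ 2 =
      ∑ ξ ∈ range Λ, ∑ ξ' ∈ range Λ, ν ξ * ν ξ' *
        ∑ s ∈ B, cncK Λ H (pr s) ((ξ : ℤ) - ξ') := by
    rw [sum_comm]
    refine sum_congr rfl fun ξ _ => ?_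
    rw [sum_comm]
    refine sum_congr rfl fun ξ' _ => ?_
    rw [mul_sum]
    refine sum_congr rfl fun s _ => ?_
    unfold cncK
    push_cast
    rfl
  rw [hre] at hmain
  have hb : ∑ ξ ∈ range Λ, ∑ ξ' ∈ range Λ, ν ξ * ν ξ' *
        ∑ s ∈ B, cncK Λ H (pr s) ((ξ : ℤ) - ξ') ≤ W * (κ / 2 + (2 * C + 1) * ν ξ₀) := by
    calc ∑ ξ ∈ range Λ, ∑ ξ' ∈ range Λ, ν ξ * ν ξ' *
        ∑ s ∈ B, cncK Λ H (pr s) ((ξ : ℤ) - ξ')
        ≤ ∑ ξ ∈ range Λ, ∑ ξ' ∈ range Λ, ν ξ * ν ξ' * (W * (κ / 2 +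
          if ∃ l : ℤ, |(l : ℝ)| ≤ C ∧ (Λ : ℤ) ∣ ((ξ : ℤ) - ξ') - l then 1 else 0)) :=
          sum_le_sum fun ξ hξ => sum_le_sum fun ξ' hξ' =>
            mul_le_mul_of_nonneg_left (hker ξ hξ ξ' hξ') (mul_nonneg (hν _) (hν _))
      _ = ∑ ξ ∈ range Λ, (W * ν ξ * (κ / 2 * ∑ ξ' ∈ range Λ, ν ξ' + ∑ ξ' ∈ range Λ,
          if ∃ l : ℤ, |(l : ℝ)| ≤ C ∧ (Λ : ℤ) ∣ ((ξ : ℤ) - ξ') - l then ν ξ' else 0)) := by
          refine sum_congr rfl fun ξ _ => ?_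
          rw [mul_sum, ← sum_add_distrib, mul_sum]
          refine sum_congr rfl fun ξ' _ => ?_
          split_ifs <;> ring
      _ ≤ ∑ ξ ∈ range Λ, (W * ν ξ * (κ / 2 + (2 * C + 1) * ν ξ₀)) := by
          refine sum_le_sum fun ξ _ => mul_le_mul_of_nonneg_left ?_ (mul_nonneg hW0.le (hν _))
          refine add_le_add ?_ ?_
          · have : κ / 2 * ∑ ξ' ∈ range Λ, ν ξ' ≤ κ / 2 * 1 :=
              mul_le_mul_of_nonneg_left hνsum (by linarith)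
            linarith
          · rw [← sum_filter]
            refine (sum_le_card_nsmul _ _ (ν ξ₀) fun ξ' hξ' =>
              hmax ξ' (mem_filter.mp hξ').1).trans ?_
            rw [nsmul_eq_mul]
            refine mul_le_mul_of_nonneg_right ?_ (hν _)
            refine cnc_near (Λ := Λ) hC ξ _ fun ξ' hξ' => ?_
            exact ⟨mem_range.mp (mem_filter.mp hξ').1, (mem_filter.mp hξ').2⟩
      _ = W * (κ / 2 + (2 * C + 1) * ν ξ₀) * ∑ ξ ∈ range Λ, ν ξ := by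
          rw [mul_sum]
          exact sum_congr rfl fun ξ _ => by ring
      _ ≤ W * (κ / 2 + (2 * C + 1) * ν ξ₀) * 1 := by
          refine mul_le_mul_of_nonneg_left hνsum (mul_nonneg hW0.le ?_)
          have := hν ξ₀
          positivity
      _ = _ := by ring
  have h1 : κ * W ≤ W * (κ / 2 + (2 * C + 1) * ν ξ₀) := by
    refine le_trans (le_of_eq ?_) (hmain.trans hb)
    rw [hW]
    ring
  have h2 : κ ≤ κ / 2 + (2 * C + 1) * ν ξ₀ := by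
    have : W * κ ≤ W * (κ / 2 + (2 * C + 1) * ν ξ₀) := by linarith
    exact le_of_mul_le_mul_left this hW0
  rw [div_le_iff₀ (by positivity)]
  nlinarith

end Pool.Agent.Helper16.MD
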